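import Pool.Agent.H187Z.AKD

open Pool.Agent.H187Z.AK

/-- A countable vacillating poset with no infinite antichain that fails property `AK_2`. -/
theorem Pool.Agent.Results.MP_1f8616_co.FACCounterexample.result :
    ∃ (α : Type) (_ : PartialOrder α), Countable α ∧ FAC α ∧ Vacillating α ∧ ¬ HasAK α 2 :=
  main
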